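import Mathlib

/-!
# Enclosures of real expressions by rational intervals
`Enc x I` says that the real `x` lies in the interval `I`; instances build the enclosure of an
expression automatically, the endpoints are evaluated by the kernel.
-/

namespace IA
open Real

/-- an interval with rational endpoints; `none` carries no information -/
abbrev Itv := Option (ℚ × ℚ)

def Mem (x : ℝ) : Itv → Prop
  | none => True
  | some (l, h) => (l : ℝ) ≤ x ∧ x ≤ (h : ℝ)

class Enc (x : ℝ) (I : outParam Itv) : Prop where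
  mem : Mem x I

/-- round down to a multiple of `2^-72` -/
def dn (q : ℚ) : ℚ := ((q * 4722366482869645213696).floor : ℚ) / 4722366482869645213696
/-- round up -/
def up (q : ℚ) : ℚ := -dn (-q)

theorem dn_le (q : ℚ) : dn q ≤ q := by
  unfold dn
  rw [div_le_iff₀ (by norm_num)]
  exact Int.floor_le (q * 4722366482869645213696)

theorem le_up (q : ℚ) : q ≤ up q := by
  unfold up
  have := dn_le (-q)
  linarith

def mk (l h : ℚ) : Itv := some (dn l, up h)

theorem mem_mk {x : ℝ} {l h : ℚ} (h1 : (l : ℝ) ≤ x) (h2 : x ≤ (h : ℝ)) : Mem x (mk l h) := by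
  refine ⟨le_trans ?_ h1, h2.trans ?_⟩
  · exact_mod_cast dn_le l
  · exact_mod_cast le_up h

def Itv.add : Itv → Itv → Itv
  | some (l, h), some (l', h') => mk (l + l') (h + h')
  | _, _ => none

def Itv.neg : Itv → Itv
  | some (l, h) => some (-h, -l)
  | none => none

def Itv.sub : Itv → Itv → Itv
  | some (l, h), some (l', h') => mk (l - h') (h - l')
  | _, _ => none

def Itv.mul : Itv → Itv → Itv
  | some (l, h), some (l', h') =>
    mk (min (min (l * l') (l * h')) (min (h * l') (h * h')))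
      (max (max (l * l') (l * h')) (max (h * l') (h * h')))
  | _, _ => none

def Itv.inv : Itv → Itv
  | some (l, h) => if 0 < l ∨ h < 0 then mk (1 / h) (1 / l) else none
  | none => none

def Itv.div (I J : Itv) : Itv := Itv.mul I (Itv.inv J)

def Itv.pow (I : Itv) : ℕ → Itv
  | 0 => some (1, 1)
  | 1 => I
  | n + 2 => Itv.mul (Itv.pow I (n + 1)) I

theorem Mem.add {x y : ℝ} {I J : Itv} (hx : Mem x I) (hy : Mem y J) : Mem (x + y) (I.add J) := by
  match I, J, hx, hy with
  | some (l, h), some (l', h'), hx, hy =>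
    refine mem_mk ?_ ?_
    · push_cast; exact add_le_add hx.1 hy.1
    · push_cast; exact add_le_add hx.2 hy.2
  | none, _, _, _ => trivial
  | some _, none, _, _ => trivial

theorem Mem.neg {x : ℝ} {I : Itv} (hx : Mem x I) : Mem (-x) I.neg := by
  match I, hx with
  | some (l, h), hx =>
    refine ⟨?_, ?_⟩
    · push_cast; exact neg_le_neg hx.2
    · push_cast; exact neg_le_neg hx.1
  | none, _ => trivial

theorem Mem.sub {x y : ℝ} {I J : Itv} (hx : Mem x I) (hy : Mem y J) : Mem (x - y) (I.sub J) := by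
  match I, J, hx, hy with
  | some (l, h), some (l', h'), hx, hy =>
    refine mem_mk ?_ ?_
    · push_cast; exact sub_le_sub hx.1 hy.2
    · push_cast; exact sub_le_sub hx.2 hy.1
  | none, _, _, _ => trivial
  | some _, none, _, _ => trivial

theorem min_mul_le {l x h c : ℝ} (h1 : l ≤ x) (h2 : x ≤ h) : min (l * c) (h * c) ≤ x * c := by
  rcases le_total 0 c with hc | hc
  · exact (min_le_left _ _).trans (mul_le_mul_of_nonneg_right h1 hc)
  · exact (min_le_right _ _).trans (mul_le_mul_of_nonpos_right h2 hc)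

theorem mul_le_max {l x h c : ℝ} (h1 : l ≤ x) (h2 : x ≤ h) : x * c ≤ max (l * c) (h * c) := by
  rcases le_total 0 c with hc | hc
  · exact (mul_le_mul_of_nonneg_right h2 hc).trans (le_max_right _ _)
  · exact (mul_le_mul_of_nonpos_right h1 hc).trans (le_max_left _ _)

theorem Mem.mul {x y : ℝ} {I J : Itv} (hx : Mem x I) (hy : Mem y J) : Mem (x * y) (I.mul J) := by
  match I, J, hx, hy with
  | some (l, h), some (l', h'), hx, hy =>
    obtain ⟨h1, h2⟩ := hx
    obtain ⟨h3, h4⟩ := hy
    refine mem_mk ?_ ?_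
    · push_cast
      refine le_trans ?_ (min_mul_le (c := y) h1 h2)
      refine min_le_min ?_ ?_
      · have := min_mul_le (c := (l : ℝ)) h3 h4
        rwa [mul_comm (l' : ℝ), mul_comm (h' : ℝ), mul_comm y] at this
      · have := min_mul_le (c := (h : ℝ)) h3 h4
        rwa [mul_comm (l' : ℝ), mul_comm (h' : ℝ), mul_comm y] at this
    · push_cast
      refine (mul_le_max (c := y) h1 h2).trans ?_
      refine max_le_max ?_ ?_
      · have := mul_le_max (c := (l : ℝ)) h3 h4
        rwa [mul_comm (l' : ℝ), mul_comm (h' : ℝ), mul_comm y] at this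
      · have := mul_le_max (c := (h : ℝ)) h3 h4
        rwa [mul_comm (l' : ℝ), mul_comm (h' : ℝ), mul_comm y] at this
  | none, _, _, _ => trivial
  | some _, none, _, _ => trivial

theorem Mem.inv {x : ℝ} {I : Itv} (hx : Mem x I) : Mem x⁻¹ I.inv := by
  match I, hx with
  | some (l, h), hx =>
    unfold Itv.inv
    obtain ⟨h1, h2⟩ := hx
    dsimp only
    split_ifs with hc
    · refine mem_mk ?_ ?_
      · push_cast
        rw [one_div]
        rcases hc with hc | hc
        · have hl : (0 : ℝ) < l := by exact_mod_cast hc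
          exact inv_anti₀ (hl.trans_le h1) h2
        · have hh : (h : ℝ) < 0 := by exact_mod_cast hc
          exact (inv_le_inv_of_neg hh (h2.trans_lt hh)).2 h2
      · push_cast
        rw [one_div]
        rcases hc with hc | hc
        · have hl : (0 : ℝ) < l := by exact_mod_cast hc
          exact inv_anti₀ hl h1
        · have hh : (h : ℝ) < 0 := by exact_mod_cast hc
          exact (inv_le_inv_of_neg (h2.trans_lt hh) (h1.trans_lt (h2.trans_lt hh))).2 h1
    · trivial
  | none, _ => trivial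

theorem Mem.div {x y : ℝ} {I J : Itv} (hx : Mem x I) (hy : Mem y J) : Mem (x / y) (I.div J) := by
  rw [div_eq_mul_inv]; exact hx.mul hy.inv

theorem Mem.pow {x : ℝ} {I : Itv} (hx : Mem x I) : ∀ n : ℕ, Mem (x ^ n) (I.pow n)
  | 0 => by simp [Itv.pow, Mem]
  | 1 => by simpa [Itv.pow] using hx
  | n + 2 => by
    rw [pow_succ]
    exact (Mem.pow hx (n + 1)).mul hx

/-! ### logarithm -/

/-- truncated series of `2 artanh x` -/
def lsum (x : ℚ) : ℕ → ℚ
  | 0 => 0
  | n + 1 => lsum x n + 2 * x ^ (2 * n + 1) / (2 * n + 1)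

theorem lsum_eq (x : ℚ) (n : ℕ) :
    ((lsum x n : ℚ) : ℝ) = 2 * ∑ i ∈ Finset.range n, (x : ℝ) ^ (2 * i + 1) / (2 * i + 1) := by
  induction n with
  | zero => simp [lsum]
  | succ n ih =>
    rw [Finset.sum_range_succ, lsum]
    push_cast
    rw [ih]
    ring

/-- error term of the series -/
def lerr (x : ℚ) (n : ℕ) : ℚ := 2 * |x| ^ (2 * n + 1) / (1 - x ^ 2)

theorem log_series {r x : ℚ} (hr : 0 < r) (hx : x = (r - 1) / (r + 1)) (n : ℕ) :
    |Real.log r - (lsum x n : ℚ)| ≤ (lerr x n : ℚ) := by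
  have h1 : |x| < 1 := by
    rw [hx, abs_lt]
    constructor
    · rw [lt_div_iff₀ (by linarith)]; linarith
    · rw [div_lt_iff₀ (by linarith)]; linarith
  have h1' : |(x : ℝ)| < 1 := by exact_mod_cast h1
  have h2 := Real.sum_range_sub_log_div_le h1' n
  have h3 : (1 + (x : ℝ)) / (1 - x) = r := by
    have hr' : (0 : ℝ) < r := by exact_mod_cast hr
    have : (x : ℝ) = (r - 1) / (r + 1) := by rw [hx]; push_cast; ring
    rw [this]
    field_simp
    ring
  rw [h3] at h2
  rw [lsum_eq, lerr]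
  have h4 : Real.log r - 2 * ∑ i ∈ Finset.range n, (x : ℝ) ^ (2 * i + 1) / (2 * i + 1)
      = 2 * (1 / 2 * Real.log r - ∑ i ∈ Finset.range n, (x : ℝ) ^ (2 * i + 1) / (2 * i + 1)) := by ring
  rw [h4, abs_mul, abs_of_pos (by norm_num : (0 : ℝ) < 2)]
  push_cast
  rw [mul_div_assoc]
  exact mul_le_mul_of_nonneg_left h2 (by norm_num)

/-- enclosure of `log 2` -/
def ltwo : ℚ × ℚ := (6243314768165359 / 9007199254740992 - 1 / 10 ^ 15,
  6243314768165359 / 9007199254740992 + 1 / 10 ^ 15)

theorem ltwo_mem : (ltwo.1 : ℝ) ≤ Real.log 2 ∧ Real.log 2 ≤ (ltwo.2 : ℝ) := by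
  have h := log_series (r := 2) (x := 1 / 3) (by norm_num) (by norm_num) 20
  rw [abs_le] at h
  have h1 : lerr (1 / 3) 20 ≤ 1 / 10 ^ 18 := by decide +kernel
  have h2 : ltwo.1 + 1 / 10 ^ 18 ≤ lsum (1 / 3) 20 := by decide +kernel
  have h3 : lsum (1 / 3) 20 ≤ ltwo.2 - 1 / 10 ^ 18 := by decide +kernel
  have h1' : ((lerr (1 / 3) 20 : ℚ) : ℝ) ≤ ((1 / 10 ^ 18 : ℚ) : ℝ) := by exact_mod_cast h1
  have h2' : ((ltwo.1 : ℚ) : ℝ) + ((1 / 10 ^ 18 : ℚ) : ℝ) ≤ ((lsum (1 / 3) 20 : ℚ) : ℝ) := by
    exact_mod_cast h2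
  have h3' : ((lsum (1 / 3) 20 : ℚ) : ℝ) ≤ ((ltwo.2 : ℚ) : ℝ) - ((1 / 10 ^ 18 : ℚ) : ℝ) := by
    exact_mod_cast h3
  norm_num at h
  norm_num at h1' h2' h3'
  constructor <;> linarith [h.1, h.2]

/-- binary exponent used for the reduction of the argument -/
def ex (q : ℚ) : ℤ := (Nat.log2 q.num.natAbs : ℤ) - (Nat.log2 q.den : ℤ)

/-- `2^e` -/
def tp : ℤ → ℚ
  | Int.ofNat n => (2 ^ n : ℕ)
  | Int.negSucc n => 1 / (2 ^ (n + 1) : ℕ)

theorem tp_pos (e : ℤ) : 0 < tp e := by
  cases e with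
  | ofNat n => simp [tp]
  | negSucc n => simp [tp]

theorem log_tp (e : ℤ) : Real.log (tp e : ℚ) = e * Real.log 2 := by
  cases e with
  | ofNat n => simp [tp, Real.log_pow]
  | negSucc n =>
    simp [tp, Real.log_pow]
    ring

/-- lower bound for `e * log 2` -/
def elo (e : ℤ) : ℚ := if 0 ≤ e then e * ltwo.1 else e * ltwo.2
/-- upper bound for `e * log 2` -/
def ehi (e : ℤ) : ℚ := if 0 ≤ e then e * ltwo.2 else e * ltwo.1

theorem elo_le (e : ℤ) : (elo e : ℝ) ≤ e * Real.log 2 := by
  unfold elo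
  split_ifs with h
  · push_cast
    exact mul_le_mul_of_nonneg_left ltwo_mem.1 (by exact_mod_cast h)
  · push_cast
    exact mul_le_mul_of_nonpos_left ltwo_mem.2 (by exact_mod_cast (not_le.1 h).le)

theorem le_ehi (e : ℤ) : e * Real.log 2 ≤ (ehi e : ℝ) := by
  unfold ehi
  split_ifs with h
  · push_cast
    exact mul_le_mul_of_nonneg_left ltwo_mem.2 (by exact_mod_cast h)
  · push_cast
    exact mul_le_mul_of_nonpos_left ltwo_mem.1 (by exact_mod_cast (not_le.1 h).le)

theorem log_series' {x : ℚ} (hx : |x| < 1) (n : ℕ) :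
    |Real.log (((1 + x) / (1 - x) : ℚ) : ℝ) - (lsum x n : ℚ)| ≤ (lerr x n : ℚ) := by
  rw [abs_lt] at hx
  have h1 : 0 < (1 + x) / (1 - x) := div_pos (by linarith [hx.1]) (by linarith [hx.2])
  refine log_series h1 ?_ n
  have : 1 - x ≠ 0 := by linarith [hx.2]
  field_simp
  ring

/-- reduced variable -/
def rx (q : ℚ) : ℚ := (q / tp (ex q) - 1) / (q / tp (ex q) + 1)

theorem log_ge {q x : ℚ} {e : ℤ} (hq : 0 < q) (hx : |x| < 1) (h : x ≤ (q / tp e - 1) / (q / tp e + 1))
    (n : ℕ) : ((elo e + lsum x n - lerr x n : ℚ) : ℝ) ≤ Real.log q := by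
  have h1 := log_series' hx n
  rw [abs_lt] at hx
  have h2 : 0 < (1 + x) / (1 - x) := div_pos (by linarith [hx.1]) (by linarith [hx.2])
  have ht := tp_pos e
  have hr : 0 < q / tp e := div_pos hq ht
  have h3 : (1 + x) / (1 - x) ≤ q / tp e := by
    rw [le_div_iff₀ (by linarith)] at h
    rw [div_le_iff₀ (by linarith [hx.2])]
    nlinarith
  have h4 : Real.log (((1 + x) / (1 - x) : ℚ) : ℝ) ≤ Real.log ((q / tp e : ℚ) : ℝ) :=
    Real.log_le_log (by exact_mod_cast h2) (by exact_mod_cast h3)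
  have h5 : Real.log ((q / tp e : ℚ) : ℝ) = Real.log q - e * Real.log 2 := by
    push_cast
    rw [Real.log_div (by exact_mod_cast hq.ne') (by exact_mod_cast ht.ne'), log_tp]
  rw [abs_le] at h1
  have h6 := elo_le e
  push_cast at h1 h4 h5 ⊢
  linarith [h1.1, h1.2]

theorem log_le {q x : ℚ} {e : ℤ} (hq : 0 < q) (hx : |x| < 1) (h : (q / tp e - 1) / (q / tp e + 1) ≤ x)
    (n : ℕ) : Real.log q ≤ ((ehi e + lsum x n + lerr x n : ℚ) : ℝ) := by
  have h1 := log_series' hx n
  rw [abs_lt] at hx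
  have h2 : 0 < (1 + x) / (1 - x) := div_pos (by linarith [hx.1]) (by linarith [hx.2])
  have ht := tp_pos e
  have hr : 0 < q / tp e := div_pos hq ht
  have h3 : q / tp e ≤ (1 + x) / (1 - x) := by
    rw [div_le_iff₀ (by linarith)] at h
    rw [le_div_iff₀ (by linarith [hx.2])]
    nlinarith
  have h4 : Real.log ((q / tp e : ℚ) : ℝ) ≤ Real.log (((1 + x) / (1 - x) : ℚ) : ℝ) :=
    Real.log_le_log (by exact_mod_cast hr) (by exact_mod_cast h3)
  have h5 : Real.log ((q / tp e : ℚ) : ℝ) = Real.log q - e * Real.log 2 := by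
    push_cast
    rw [Real.log_div (by exact_mod_cast hq.ne') (by exact_mod_cast ht.ne'), log_tp]
  rw [abs_le] at h1
  have h6 := le_ehi e
  push_cast at h1 h4 h5 ⊢
  linarith [h1.1, h1.2]

def Itv.log : Itv → Itv
  | some (l, h) =>
    if 0 < l ∧ |dn (rx l)| < 1 ∧ |up (rx h)| < 1 then
      mk (elo (ex l) + lsum (dn (rx l)) 20 - lerr (dn (rx l)) 20)
        (ehi (ex h) + lsum (up (rx h)) 20 + lerr (up (rx h)) 20)
    else none
  | none => none

theorem Mem.log {x : ℝ} {I : Itv} (hx : Mem x I) : Mem (Real.log x) I.log := by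
  match I, hx with
  | some (l, h), hx =>
    obtain ⟨h1, h2⟩ := hx
    unfold Itv.log
    dsimp only
    split_ifs with hc
    · obtain ⟨c1, c2, c3⟩ := hc
      have hl : (0 : ℝ) < l := by exact_mod_cast c1
      have hh : 0 < h := by
        have : (0 : ℝ) < h := hl.trans_le (h1.trans h2)
        exact_mod_cast this
      refine mem_mk ?_ ?_
      · exact (log_ge c1 c2 (dn_le _) 20).trans (Real.log_le_log hl h1)
      · exact (Real.log_le_log (hl.trans_le h1) h2).trans (log_le hh c3 (le_up _) 20)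
    · trivial
  | none, _ => trivial

/-! ### square root -/

/-- Newton iteration from above (no claim on the value: the results are checked) -/
def newton (q : ℚ) : ℕ → ℚ → ℚ
  | 0, s => s
  | n + 1, s => newton q n (up ((s + q / s) / 2))

def sq0 (q : ℚ) : ℚ := newton q 9 (tp (ex q / 2 + 1))

/-- candidate for the lower bound -/
def sqlo (l : ℚ) : ℚ := if 0 < l then l / sq0 l else 0

def Itv.sqrt : Itv → Itv
  | some (l, h) =>
    if 0 ≤ sqlo l ∧ (sqlo l) ^ 2 ≤ l ∧ 0 ≤ sq0 h ∧ h ≤ (sq0 h) ^ 2 then mk (sqlo l) (sq0 h) else none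
  | none => none

theorem Mem.sqrt {x : ℝ} {I : Itv} (hx : Mem x I) : Mem (Real.sqrt x) I.sqrt := by
  match I, hx with
  | some (l, h), hx =>
    obtain ⟨h1, h2⟩ := hx
    unfold Itv.sqrt
    dsimp only
    split_ifs with hc
    · obtain ⟨c1, c2, c3, c4⟩ := hc
      refine mem_mk ?_ ?_
      · refine Real.le_sqrt_of_sq_le ?_
        refine le_trans ?_ h1
        exact_mod_cast c2
      · refine Real.sqrt_le_iff.2 ⟨by exact_mod_cast c3, h2.trans ?_⟩
        exact_mod_cast c4
    · trivial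
  | none, _ => trivial

/-! ### instances -/

variable {x y : ℝ} {I J : Itv}

instance instAdd [hx : Enc x I] [hy : Enc y J] : Enc (x + y) (I.add J) := ⟨hx.mem.add hy.mem⟩
instance instSub [hx : Enc x I] [hy : Enc y J] : Enc (x - y) (I.sub J) := ⟨hx.mem.sub hy.mem⟩
instance instMul [hx : Enc x I] [hy : Enc y J] : Enc (x * y) (I.mul J) := ⟨hx.mem.mul hy.mem⟩
instance instDiv [hx : Enc x I] [hy : Enc y J] : Enc (x / y) (I.div J) := ⟨hx.mem.div hy.mem⟩
instance instNeg [hx : Enc x I] : Enc (-x) I.neg := ⟨hx.mem.neg⟩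
instance instInv [hx : Enc x I] : Enc x⁻¹ I.inv := ⟨hx.mem.inv⟩
instance instPow (n : ℕ) [hx : Enc x I] : Enc (x ^ n) (I.pow n) := ⟨hx.mem.pow n⟩
instance instLog [hx : Enc x I] : Enc (Real.log x) I.log := ⟨hx.mem.log⟩
instance instSqrt [hx : Enc x I] : Enc (Real.sqrt x) I.sqrt := ⟨hx.mem.sqrt⟩

instance instZero : Enc 0 (some (0, 0)) := ⟨by simp [Mem]⟩
instance instOne : Enc 1 (some (1, 1)) := ⟨by simp [Mem]⟩
instance instOfNat (n : ℕ) [n.AtLeastTwo] :
    Enc (no_index (OfNat.ofNat n : ℝ)) (some ((n : ℚ), (n : ℚ))) := by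
  have h : ((n : ℚ) : ℝ) = (OfNat.ofNat n : ℝ) := by
    rw [Rat.cast_natCast]
    exact Nat.cast_ofNat (R := ℝ) (n := n)
  exact ⟨h.le, h.ge⟩
instance instSci (m : ℕ) (s : Bool) (e : ℕ) : Enc (OfScientific.ofScientific m s e : ℝ)
    (some ((OfScientific.ofScientific m s e : ℚ), (OfScientific.ofScientific m s e : ℚ))) :=
  ⟨by simp [Mem]⟩
instance instPi : Enc Real.pi (some (3.14159265358979323846, 3.14159265358979323847)) := by
  refine ⟨?_, ?_⟩
  · have := Real.pi_gt_d20.le
    push_cast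
    exact this
  · have := Real.pi_lt_d20.le
    push_cast
    exact this

/-- enclosure of a variable -/
theorem enc_of {x : ℝ} (l h : ℚ) (h1 : (l : ℝ) ≤ x) (h2 : x ≤ (h : ℝ)) : Enc x (some (l, h)) := ⟨h1, h2⟩

def Itv.isPos : Itv → Bool
  | some (l, _) => decide (0 < l)
  | none => false
def Itv.isNeg : Itv → Bool
  | some (_, h) => decide (h < 0)
  | none => false
def Itv.isNonneg : Itv → Bool
  | some (l, _) => decide (0 ≤ l)
  | none => false
def Itv.isNonpos : Itv → Bool
  | some (_, h) => decide (h ≤ 0)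
  | none => false
def Itv.lowerB (c : ℚ) : Itv → Bool
  | some (l, _) => decide (c ≤ l)
  | none => false
def Itv.upperB (c : ℚ) : Itv → Bool
  | some (_, h) => decide (h ≤ c)
  | none => false

theorem pos [hx : Enc x I] (h : I.isPos = true) : 0 < x := by
  match I, hx.mem, h with
  | some (l, _), hm, h =>
    simp only [Itv.isPos, decide_eq_true_eq] at h
    exact lt_of_lt_of_le (by exact_mod_cast h) hm.1

theorem neg [hx : Enc x I] (h : I.isNeg = true) : x < 0 := by
  match I, hx.mem, h with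
  | some (_, l), hm, h =>
    simp only [Itv.isNeg, decide_eq_true_eq] at h
    exact lt_of_le_of_lt hm.2 (by exact_mod_cast h)

theorem nonneg [hx : Enc x I] (h : I.isNonneg = true) : 0 ≤ x := by
  match I, hx.mem, h with
  | some (l, _), hm, h =>
    simp only [Itv.isNonneg, decide_eq_true_eq] at h
    exact le_trans (by exact_mod_cast h) hm.1

theorem nonpos [hx : Enc x I] (h : I.isNonpos = true) : x ≤ 0 := by
  match I, hx.mem, h with
  | some (_, l), hm, h =>
    simp only [Itv.isNonpos, decide_eq_true_eq] at h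
    exact le_trans hm.2 (by exact_mod_cast h)

theorem ge (c : ℚ) [hx : Enc x I] (h : I.lowerB c = true) : (c : ℝ) ≤ x := by
  match I, hx.mem, h with
  | some (l, _), hm, h =>
    simp only [Itv.lowerB, decide_eq_true_eq] at h
    exact le_trans (by exact_mod_cast h) hm.1

theorem le (c : ℚ) [hx : Enc x I] (h : I.upperB c = true) : x ≤ (c : ℝ) := by
  match I, hx.mem, h with
  | some (_, l), hm, h =>
    simp only [Itv.upperB, decide_eq_true_eq] at h
    exact le_trans hm.2 (by exact_mod_cast h)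

/-- comparison of two expressions -/
theorem lt_of {x y : ℝ} {I : Itv} [hx : Enc (y - x) I] (h : I.isPos = true) : x < y :=
  sub_pos.1 (pos h)

theorem le_of {x y : ℝ} {I : Itv} [hx : Enc (y - x) I] (h : I.isNonneg = true) : x ≤ y :=
  sub_nonneg.1 (nonneg h)

end IA
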