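import Pool.Agent.Helper7.IA.Basic
open Real
example {k : ℝ} (h1 : 38.8 ≤ k) (h2 : k ≤ 39) : Real.log k * Real.sqrt k - 3 / k + 2 ^ 2 < 30 := by
  have : IA.Enc k (some (38.8, 39)) := IA.enc_of _ _ (by norm_num; linarith) (by norm_num; linarith)
  exact IA.lt_of (by decide +kernel)
example : (3.6606599223 : ℝ) < Real.log 38.88699680626341  := IA.lt_of (by decide +kernel)
example : Real.log 38.88699680626341 < (3.6606599225 : ℝ) := IA.lt_of (by decide +kernel)
example : Real.sqrt 2 < 1.41421356237309504881 := IA.lt_of (by decide +kernel)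
example : 1.414213562373095048 < Real.sqrt 2 := IA.lt_of (by decide +kernel)
example : 5.7 < π * Real.log (1 + 2 + π) := IA.lt_of (by decide +kernel)
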